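import Pool.Agent.U709.FF.Stm

/-!
Project FF, package VA: powers in finitely generated virtually abelian groups.
-/

set_option autoImplicit false

namespace Pool.Agent.U111.FF.VA

open Pool.Agent.U709.FF

/-- the torsion of a finitely generated abelian group has finite exponent -/
theorem tors (B : Type) [CommGroup B] [Group.FG B] :
    ∃ k : ℕ, 0 < k ∧ ∀ a : B, IsOfFinOrder a → a ^ k = 1 := by
  have h1 : Module.Finite ℤ (Additive B) := by
    rw [Module.Finite.iff_addGroup_fg]
    infer_instance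
  have h2 : Module.Finite ℤ (Submodule.torsion ℤ (Additive B)) := inferInstance
  have h3 : Finite (Submodule.torsion ℤ (Additive B)) :=
    Module.finite_of_fg_torsion _ Submodule.torsion_isTorsion
  refine ⟨Nat.card (Submodule.torsion ℤ (Additive B)), Nat.card_pos, fun a ha => ?_⟩
  obtain ⟨n, hn, han⟩ := isOfFinOrder_iff_pow_eq_one.1 ha
  have hmem : Additive.ofMul a ∈ Submodule.torsion ℤ (Additive B) := by
    rw [Submodule.mem_torsion_iff]
    refine ⟨⟨(n : ℤ), ?_⟩, ?_⟩
    · rw [mem_nonZeroDivisors_iff_ne_zero]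
      exact_mod_cast hn.ne'
    · show (n : ℤ) • Additive.ofMul a = 0
      rw [natCast_zsmul, ← ofMul_pow, han]
      rfl
  have h4 : Nat.card (Submodule.torsion ℤ (Additive B)) •
      (⟨Additive.ofMul a, hmem⟩ : Submodule.torsion ℤ (Additive B)) = 0 := card_nsmul_eq_zero'
  have h5 := congrArg Subtype.val h4
  rw [Submodule.coe_smul_of_tower] at h5
  exact h5

/-- the powers of a finitely generated abelian group -/
theorem pow_fin (B : Type) [CommGroup B] [Group.FG B] (n : ℕ) (hn : 0 < n) :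
    (powMonoidHom n : B →* B).range.FiniteIndex := by
  have h1 : Finite (B ⧸ (powMonoidHom n : B →* B).range) := by
    apply CommGroup.finite_of_fg_isMulTorsion
    intro g
    induction g using QuotientGroup.induction_on with
    | H a =>
      rw [isOfFinOrder_iff_pow_eq_one]
      refine ⟨n, hn, ?_⟩
      rw [← QuotientGroup.mk_pow, QuotientGroup.eq_one_iff]
      exact ⟨a, rfl⟩
  exact Subgroup.finiteIndex_of_finite_quotient

/-- divisible elements of finitely generated torsion-free abelian groups -/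
theorem divi (B : Type) [CommGroup B] [Group.FG B] (htf : ∀ b : B, IsOfFinOrder b → b = 1)
    (s : ℕ) (hs : 0 < s) (b : B) (h : ∀ p : ℕ, p.Prime → ¬ p ∣ s → ∃ a : B, b = a ^ p) :
    b = 1 := by
  have h0 : IsMulTorsionFree B := by
    refine ⟨fun n hn x y hxy => ?_⟩
    have hxy' : x ^ n = y ^ n := hxy
    have h1 : (x / y) ^ n = 1 := by rw [div_pow, hxy', div_self']
    have h2 := htf (x / y) (isOfFinOrder_iff_pow_eq_one.2 ⟨n, Nat.pos_of_ne_zero hn, h1⟩)
    exact div_eq_one.1 h2
  have h1 : Module.Finite ℤ (Additive B) := by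
    rw [Module.Finite.iff_addGroup_fg]
    infer_instance
  have h2 : Module.Free ℤ (Additive B) := inferInstance
  let c := Module.Free.chooseBasis ℤ (Additive B)
  have h3 : c.repr (Additive.ofMul b) = 0 := by
    ext i
    rw [Finsupp.zero_apply]
    by_contra hne
    obtain ⟨p, hp, hpp⟩ := Nat.exists_infinite_primes
      (s + (c.repr (Additive.ofMul b) i).natAbs + 1)
    have hps : ¬ p ∣ s := fun hd => by
      have := Nat.le_of_dvd hs hd
      omega
    obtain ⟨a, ha⟩ := h p hpp hps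
    have h4 : c.repr (Additive.ofMul b) i = (p : ℤ) * c.repr (Additive.ofMul a) i := by
      rw [ha, ofMul_pow, map_nsmul, Finsupp.smul_apply, nsmul_eq_mul]
    have h5 : (p : ℤ) ∣ c.repr (Additive.ofMul b) i := ⟨_, h4⟩
    have h6 : p ∣ (c.repr (Additive.ofMul b) i).natAbs := Int.natCast_dvd.1 h5
    have h7 := Nat.le_of_dvd (Int.natAbs_pos.2 hne) h6
    omega
  have h4 : Additive.ofMul b = 0 := by
    apply c.repr.injective
    rw [h3, map_zero]
  exact h4

/-- an abelian subgroup as a commutative group -/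
@[reducible] def cg {N : Type} [Group N] {A : Subgroup N} (h : Ab A) : CommGroup A :=
  { (inferInstance : Group A) with
    mul_comm := fun a b => Subtype.ext (h a.1 a.2 b.1 b.2) }

/-- the subgroup of the `n`-th powers of the elements of an abelian subgroup -/
theorem powSub {N : Type} [Group N] [Group.FG N] {A : Subgroup N} (h : Ab A) [A.FiniteIndex]
    (n : ℕ) (hn : 0 < n) :
    ∃ D : Subgroup N, D.FiniteIndex ∧ ∀ x, x ∈ D ↔ ∃ a ∈ A, x = a ^ n := by
  let := cg h
  have hfg : Group.FG A := Subgroup.fg_of_index_ne_zero A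
  have h1 := pow_fin A n hn
  refine ⟨(powMonoidHom n : A →* A).range.map A.subtype, ?_, ?_⟩
  · rw [Subgroup.finiteIndex_iff, Subgroup.index_map_subtype]
    exact Nat.mul_ne_zero h1.index_ne_zero (Subgroup.FiniteIndex.index_ne_zero)
  · intro x
    constructor
    · rintro ⟨y, ⟨z, rfl⟩, rfl⟩
      exact ⟨z.1, z.2, rfl⟩
    · rintro ⟨a, ha, rfl⟩
      exact ⟨(⟨a, ha⟩ : A) ^ n, ⟨⟨a, ha⟩, rfl⟩, rfl⟩

theorem t_VA : VA := by
  intro N _ hfg hA
  obtain ⟨A, hAf, hAab⟩ := hA
  have := hfg
  have := hAf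
  -- the normal core
  have hA3 : Ab A.normalCore := fun a ha b hb =>
    hAab a (A.normalCore_le ha) b (A.normalCore_le hb)
  let := cg hA3
  have hfg3 : Group.FG A.normalCore := Subgroup.fg_of_index_ne_zero A.normalCore
  obtain ⟨k, hk, htor⟩ := tors A.normalCore
  have hidx : 0 < A.normalCore.index := Nat.pos_of_ne_zero Subgroup.FiniteIndex.index_ne_zero
  refine ⟨A.normalCore.index * k, Nat.mul_pos hidx hk, ?_⟩
  set e : ℕ := A.normalCore.index * k with he
  have hepos : 0 < e := Nat.mul_pos hidx hk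
  set A0 : Subgroup N := Subgroup.closure {x : N | ∃ y, x = y ^ e} with hA0
  -- `A0` lies in the subgroup of the `k`-th powers
  obtain ⟨Dk, hDkf, hDk⟩ := powSub hA3 k hk
  have hsub : A0 ≤ Dk := by
    rw [hA0, Subgroup.closure_le]
    rintro x ⟨y, rfl⟩
    show y ^ e ∈ Dk
    rw [hDk]
    exact ⟨y ^ A.normalCore.index, Subgroup.pow_index_mem A.normalCore y, by rw [he, pow_mul]⟩
  have hA0ab : Ab A0 := by
    intro a ha b hb
    obtain ⟨a', ha', rfl⟩ := (hDk a).1 (hsub ha)
    obtain ⟨b', hb', rfl⟩ := (hDk b).1 (hsub hb)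
    exact hA3 _ (pow_mem ha' k) _ (pow_mem hb' k)
  have hA0tf : ∀ a ∈ A0, IsOfFinOrder a → a = 1 := by
    intro a ha hfo
    obtain ⟨a', ha', rfl⟩ := (hDk a).1 (hsub ha)
    have h1 : IsOfFinOrder a' := by
      obtain ⟨j, hj, hj1⟩ := isOfFinOrder_iff_pow_eq_one.1 hfo
      exact isOfFinOrder_iff_pow_eq_one.2 ⟨k * j, Nat.mul_pos hk hj, by rw [pow_mul, hj1]⟩
    have h2 : IsOfFinOrder (⟨a', ha'⟩ : A.normalCore) := by
      obtain ⟨j, hj, hj1⟩ := isOfFinOrder_iff_pow_eq_one.1 h1
      exact isOfFinOrder_iff_pow_eq_one.2 ⟨j, hj, Subtype.ext hj1⟩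
    exact congrArg Subtype.val (htor _ h2)
  -- `A0` has finite index
  obtain ⟨De, hDef, hDe⟩ := powSub hA3 e hepos
  have hsub2 : De ≤ A0 := by
    intro x hx
    obtain ⟨a, -, rfl⟩ := (hDe x).1 hx
    exact Subgroup.subset_closure ⟨a, rfl⟩
  have hA0f : A0.FiniteIndex := Subgroup.finiteIndex_of_le hsub2
  refine ⟨hA0f, hA0ab, fun p hp => powSub hA0ab p hp, fun s hs b hb h => ?_⟩
  let := cg hA0ab
  have hfg0 : Group.FG A0 := Subgroup.fg_of_index_ne_zero A0
  have h1 := divi A0 (fun x hx => by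
    apply Subtype.ext
    apply hA0tf x.1 x.2
    obtain ⟨j, hj, hj1⟩ := isOfFinOrder_iff_pow_eq_one.1 hx
    exact isOfFinOrder_iff_pow_eq_one.2 ⟨j, hj, congrArg Subtype.val hj1⟩) s hs ⟨b, hb⟩
    (fun p hp hps => by
      obtain ⟨a, ha, hab⟩ := h p hp hps
      exact ⟨⟨a, ha⟩, Subtype.ext hab⟩)
  exact congrArg Subtype.val h1

end Pool.Agent.U111.FF.VA
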